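import Pool.Agent.H34.FQ.Targets

/-!
# LO0: the vectors `v` for one prime `l` (helper23)
-/

set_option autoImplicit false

open Finset Pool.Agent.H32.RQ Pool.Agent.H34.FQ

namespace Pool.Agent.H23.HFQ

private lemma gG_smul {n : ℕ} {F : Mon (n + 2) → ℤ} (N : NF F) (a : ℝ) (f : Mon (n + 2) → ℝ)
    (c : ℝ) (v : Fin n → ℝ) : gG N (fun p => a * f p) c v = a * gG N f c v := by
  unfold gG qf
  rw [Finset.mul_sum]
  exact Finset.sum_congr rfl fun p _ => by ring

/-- the vectors in a cube and a class -/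
private def SS {n : ℕ} (r : Mon n → ℤ) (R l : ℕ) (κX : ℝ) (b : Fin n → ℝ) (a : Fin n → ℤ) :
    Set (Fin n → ℤ) :=
  {v : Fin n → ℤ | (∀ i, b i ≤ v i ∧ (v i : ℝ) ≤ b i + κX) ∧
        (∀ i, (R : ℤ) ∣ v i - a i) ∧ (l : ℤ) ∣ qf r v}

theorem pf_LO0 (hGLO : T_GLO) (hCU1 : T_CU1) : T_LO0 := by
  intro n F N V ρ hn hV hρ
  classical
  obtain ⟨c₁, C, hc₁, hC, hCU⟩ := hCU1 n F N V ρ (by omega) hV hρ
  refine ⟨min (min c₁ 1) (c₁ ^ (n - 1) / 8 ^ (n + 2)), C, by positivity, hC, ?_⟩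
  intro h m R hh hhc hm hR
  have h1 : h ≤ c₁ := hhc.trans ((min_le_left _ _).trans (min_le_left _ _))
  have h2 : h ≤ 1 := hhc.trans ((min_le_left _ _).trans (min_le_right _ _))
  obtain ⟨X₀, hX₀⟩ := hGLO n N.r R h (by omega) N.nd hR hh h2
  refine ⟨max X₀ R, fun X A l f hX hA hf hRB hl hXl hl4 => ?_⟩
  have hX0 : X₀ ≤ X := (le_max_left _ _).trans hX
  have hXR : R ≤ X := (le_max_right _ _).trans hX
  have hcop : IsCoprime (R : ℤ) (l : ℤ) := by
    rw [Nat.isCoprime_iff_coprime]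
    exact (((Nat.Prime.coprime_iff_not_dvd hl).mpr
      (Nat.not_dvd_of_pos_of_lt (by omega) (by omega)))).symm
  have hA0 : (0 : ℝ) < A := by exact_mod_cast hA
  have hm0 : (1 : ℝ) ≤ m := by exact_mod_cast hm
  have hl0 : (0 : ℝ) < l := by exact_mod_cast hl.pos
  have hml : (0 : ℝ) < m * l := by positivity
  have hXml : (X : ℝ) ≤ m * l := by
    have : (X : ℝ) ≤ l := by exact_mod_cast hXl.le
    nlinarith
  -- the normalised form
  set f' : Mon (n + 2) → ℝ := fun p => (f p : ℝ) / A with hf'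
  have hff : cf ℝ f = fun p => (A : ℝ) * f' p := by
    funext p
    rw [hf']
    show (f p : ℝ) = _
    field_simp
  have hf1 : ∀ p, |f' p| ≤ 1 := by
    intro p
    have hp := (Fintype.mem_piFinset.mp hf) p
    rw [mem_Icc] at hp
    rw [hf', abs_div, abs_of_pos hA0, div_le_one hA0, abs_le]
    constructor
    · have := hp.1
      exact_mod_cast this
    · exact_mod_cast hp.2
  have hgG : ∀ z : Fin n → ℝ, gG N (cf ℝ f) 1 z = A * gG N f' 1 z := by
    intro z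
    rw [hff, gG_smul]
  obtain ⟨u₀, u₁, hu₀, hu₁, hg₀, hg₁⟩ := hRB
  rw [hgG] at hg₀ hg₁
  have hg₀' : ρ ≤ gG N f' 1 u₀ := by
    have : ρ * A ≤ gG N f' 1 u₀ * A := by linarith
    exact le_of_mul_le_mul_right this hA0
  have hg₁' : gG N f' 1 u₁ ≤ -ρ := by
    have : gG N f' 1 u₁ * A ≤ -ρ * A := by linarith
    exact le_of_mul_le_mul_right this hA0
  obtain ⟨Y, hYc, hY1, hY2⟩ := hCU f' u₀ u₁ hf1 hu₀ hu₁ hg₀' hg₁' h hh h1
  -- finiteness
  have hfin : (VL N m R l f (V + 2) (C * h * A)).Finite := by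
    set Bd : ℤ := ⌈(m : ℝ) * l * (V + 2)⌉ with hBd
    apply (Fintype.piFinset fun _ : Fin n => Finset.Icc (-Bd) Bd).finite_toSet.subset
    intro v hv
    obtain ⟨_, _, hv3, _⟩ := hv
    rw [mem_coe, Fintype.mem_piFinset]
    intro i
    have h3 := abs_le.mp (hv3 i)
    have h4 : (m : ℝ) * l * (V + 2) ≤ (Bd : ℝ) := Int.le_ceil _
    rw [mem_Icc]
    constructor
    · have h5 : (-(Bd : ℝ)) ≤ v i := by linarith [h3.1]
      exact_mod_cast h5
    · have h5 : (v i : ℝ) ≤ Bd := by linarith [h3.2]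
      exact_mod_cast h5
  refine ⟨hfin, ?_⟩
  -- the cubes
  set Sq : (Fin n → ℝ) × (Fin n → ℤ) → Set (Fin n → ℤ) := fun q =>
    SS N.r R l (h * X) (fun i => (m : ℝ) * l * (q.1 i - h)) (fun i => (l : ℤ) * q.2 i) with hSq
  have hz : ∀ q : (Fin n → ℝ) × (Fin n → ℤ), ∀ v ∈ Sq q, ∀ j,
      q.1 j - h ≤ (v j : ℝ) / (m * l) ∧ (v j : ℝ) / (m * l) ≤ q.1 j := by
    intro q v hv j
    obtain ⟨hv1, _, _⟩ := hv
    have h3 := hv1 j
    constructor
    · rw [le_div_iff₀ hml]; linarith [h3.1]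
    · rw [div_le_iff₀ hml]
      have h4 : h * X ≤ h * (m * l) := mul_le_mul_of_nonneg_left hXml hh.le
      have h5 := h3.2
      dsimp only at h5
      nlinarith
  have hsub : ∀ q ∈ Y ×ˢ UU N m R f, Sq q ⊆ VL N m R l f (V + 2) (C * h * A) := by
    intro q hq v hv
    rw [mem_product] at hq
    have hz' := hz q v hv
    obtain ⟨hv1, hv2, hv3⟩ := hv
    have h3 := hY1 q.1 hq.1 (fun i => (v i : ℝ) / (m * l)) (fun j => by
      rw [abs_le]
      constructor
      · linarith [(hz' j).1]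
      · linarith [(hz' j).2])
    refine ⟨⟨q.2, hq.2, hv2⟩, hv3, fun i => ?_, ?_⟩
    · have h4 := h3.1 i
      rw [abs_div, abs_of_pos hml, div_le_iff₀ hml] at h4
      linarith
    · rw [hgG, abs_mul, abs_of_pos hA0]
      calc (A : ℝ) * |gG N f' 1 fun i => (v i : ℝ) / (m * l)| ≤ A * (C * h) :=
            mul_le_mul_of_nonneg_left h3.2 hA0.le
        _ = C * h * A := by ring
  have hcard : ∀ q : (Fin n → ℝ) × (Fin n → ℤ),
      h ^ n * (X : ℝ) ^ (n - 1) / (8 ^ (n + 2) * (R : ℝ) ^ n) ≤ ((Sq q).ncard : ℝ) := fun q =>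
    hX₀ X l (fun i => (m : ℝ) * l * (q.1 i - h)) (fun i => (l : ℤ) * q.2 i) hX0 hl hXl hl4
  set W := hfin.toFinset with hW
  have hWc : (VL N m R l f (V + 2) (C * h * A)).ncard = W.card :=
    Set.ncard_eq_toFinset_card _ hfin
  have hcard' : ∀ q ∈ Y ×ˢ UU N m R f,
      h ^ n * (X : ℝ) ^ (n - 1) / (8 ^ (n + 2) * (R : ℝ) ^ n) ≤
        ((W.filter fun v => v ∈ Sq q).card : ℝ) := by
    intro q hq
    have h3 : Sq q = ((W.filter fun v => v ∈ Sq q : Finset (Fin n → ℤ)) : Set (Fin n → ℤ)) := by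
      ext v
      simp only [coe_filter, Set.mem_setOf_eq, hW, Set.Finite.mem_toFinset]
      exact ⟨fun hv => ⟨hsub q hq hv, hv⟩, fun hv => hv.2⟩
    have h4 : (Sq q).ncard = (W.filter fun v => v ∈ Sq q).card := by
      conv_lhs => rw [h3]
      exact Set.ncard_coe_finset _
    rw [← h4]
    exact hcard q
  have hdisj : (↑(Y ×ˢ UU N m R f) : Set ((Fin n → ℝ) × (Fin n → ℤ))).PairwiseDisjoint
      (fun q => W.filter fun v => v ∈ Sq q) := by
    intro q hq q' hq' hne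
    rw [Function.onFun, Finset.disjoint_left]
    intro v hv hv'
    apply hne
    rw [mem_coe, mem_product] at hq hq'
    have hv1 := (mem_filter.mp hv).2
    have hv1' := (mem_filter.mp hv').2
    have hy : q.1 = q'.1 := by
      by_contra hyy
      obtain ⟨j, hj⟩ := hY2 q.1 hq.1 q'.1 hq'.1 hyy
      have e1 := hz q v hv1 j
      have e2 := hz q' v hv1' j
      have : |q.1 j - q'.1 j| ≤ h := by
        rw [abs_le]
        constructor <;> linarith [e1.1, e1.2, e2.1, e2.2]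
      linarith
    apply Prod.ext hy
    funext i
    have e1 := hv1.2.1 i
    have e2 := hv1'.2.1 i
    have e3 : (R : ℤ) ∣ (l : ℤ) * (q.2 i - q'.2 i) := by
      have := dvd_sub e2 e1
      have e4 : (v i - (l : ℤ) * q'.2 i) - (v i - (l : ℤ) * q.2 i) =
          (l : ℤ) * (q.2 i - q'.2 i) := by ring
      rwa [e4] at this
    have e4 : (R : ℤ) ∣ q.2 i - q'.2 i := hcop.dvd_of_dvd_mul_left e3
    have e5 := (Fintype.mem_piFinset.mp (mem_filter.mp hq.2).1) i
    have e6 := (Fintype.mem_piFinset.mp (mem_filter.mp hq'.2).1) i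
    rw [mem_Ico] at e5 e6
    have e7 : q.2 i - q'.2 i = 0 := by
      apply Int.eq_zero_of_abs_lt_dvd e4
      rw [abs_lt]
      constructor <;> linarith [e5.1, e5.2, e6.1, e6.2]
    linarith
  have hsum : ∑ q ∈ Y ×ˢ UU N m R f, ((W.filter fun v => v ∈ Sq q).card : ℝ) ≤ (W.card : ℝ) := by
    have h3 := Finset.card_biUnion hdisj
    have h4 : ((Y ×ˢ UU N m R f).biUnion fun q => W.filter fun v => v ∈ Sq q).card ≤ W.card :=
      card_le_card (biUnion_subset.mpr fun q _ => filter_subset _ _)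
    rw [h3] at h4
    exact_mod_cast h4
  rw [hWc]
  have hR0 : (0 : ℝ) < R := by exact_mod_cast hR
  calc min (min c₁ 1) (c₁ ^ (n - 1) / 8 ^ (n + 2)) * h * (X : ℝ) ^ (n - 1) *
      (UU N m R f).card / (R : ℝ) ^ n
      ≤ (c₁ ^ (n - 1) / 8 ^ (n + 2)) * h * (X : ℝ) ^ (n - 1) * (UU N m R f).card /
        (R : ℝ) ^ n := by
        gcongr
        exact min_le_right _ _
    _ = (c₁ / h) ^ (n - 1) * (UU N m R f).card *
        (h ^ n * (X : ℝ) ^ (n - 1) / (8 ^ (n + 2) * (R : ℝ) ^ n)) := by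
        have h3 : h ^ n = h * h ^ (n - 1) := by
          rw [← pow_succ']
          congr 1
          omega
        rw [h3, div_pow]
        field_simp
    _ ≤ (Y.card : ℝ) * (UU N m R f).card *
        (h ^ n * (X : ℝ) ^ (n - 1) / (8 ^ (n + 2) * (R : ℝ) ^ n)) := by
        gcongr
    _ = ∑ q ∈ Y ×ˢ UU N m R f,
        (h ^ n * (X : ℝ) ^ (n - 1) / (8 ^ (n + 2) * (R : ℝ) ^ n)) := by
        rw [sum_const, card_product, nsmul_eq_mul]
        push_cast
        ring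
    _ ≤ ∑ q ∈ Y ×ˢ UU N m R f, ((W.filter fun v => v ∈ Sq q).card : ℝ) :=
        sum_le_sum hcard'
    _ ≤ (W.card : ℝ) := hsum

end Pool.Agent.H23.HFQ
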