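import Pool.Agent.H34.FQ.Targets

/-!
# LPP: the forms with a `p`-adic zero which are not robust at `p` are rare (helper23)
-/

set_option autoImplicit false

open Finset Pool.Agent.H32.RQ Pool.Agent.H34.FQ

namespace Pool.Agent.H23.HFQ

private lemma exists_pow_large (p : ℕ) (hp : p.Prime) (C δ : ℝ) (hδ : 0 < δ) :
    ∃ t : ℕ, C ≤ δ * (p : ℝ) ^ t := by
  have h1 : (1 : ℝ) < p := by exact_mod_cast hp.one_lt
  obtain ⟨t, ht⟩ := pow_unbounded_of_one_lt (C / δ) h1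
  refine ⟨t, ?_⟩
  rw [div_lt_iff₀ hδ] at ht
  linarith

theorem pf_LPP (hPN1 : T_PN1) (hPN2 : T_PN2) (hPN3 : T_PN3) (hMOV : T_MOV) (hTRM : T_TRM)
    (hQPZ : T_QPZ) : T_LPP := by
  intro n F N p _ ε hn hdet hε
  classical
  have hp : p.Prime := Fact.out
  have hp1 : (1 : ℝ) < p := by exact_mod_cast hp.one_lt
  have hp0 : (0 : ℝ) < p := by linarith
  have hz : Prm (fun i => N.T i 1) := by
    refine ⟨fun i => N.Ti 1 i, ?_⟩
    have h := congrFun (congrFun N.h2 1) 1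
    rw [Matrix.mul_apply] at h
    rw [h]; simp
  obtain ⟨k₀, hk₀⟩ := exists_pow_large p hp (2 ^ md (n + 2)) (ε / 3) (by positivity)
  obtain ⟨C₁, hC₁, hPN1⟩ := hPN1 (n + 2) F p (by omega) hdet hp
  obtain ⟨C₂, hC₂, hPN2⟩ := hPN2 n F N p k₀ hn hp
  obtain ⟨t, ht⟩ := exists_pow_large p hp (C₁ + C₂) (ε / 3) (by positivity)
  obtain ⟨t₁, hTRM⟩ := hTRM n F N p t hp
  refine ⟨t₁, fun t' ht' => ?_⟩
  obtain ⟨k, hTRM⟩ := hTRM t' ht'
  refine ⟨p ^ t + p ^ k₀, fun A hA => ?_⟩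
  have hAt : p ^ t ≤ 2 * A + 1 := by omega
  have hAk : p ^ k₀ ≤ 2 * A + 1 := by omega
  set Y : ℝ := (2 * (A : ℝ) + 1) ^ md (n + 2) with hY
  have hY0 : 0 ≤ Y := by positivity
  have e1 := hPN1 t A hAt
  have e2 := hPN2 t A hAt
  have e3 := hPN3 (n + 2) (p ^ k₀) A (fun i => N.T i 1) hz (Nat.one_le_pow _ _ hp.pos) hAk
  have b1' : (((b1 (n + 2) A).filter fun f => NP t p ![F, f]).card : ℝ) ≤ ε / 3 * Y := by
    have hpt : (0 : ℝ) < (p : ℝ) ^ t := by positivity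
    rw [← mul_le_mul_iff_of_pos_right hpt]
    calc _ ≤ C₁ * Y := e1
      _ ≤ (ε / 3 * (p : ℝ) ^ t) * Y := mul_le_mul_of_nonneg_right (by linarith) hY0
      _ = ε / 3 * Y * (p : ℝ) ^ t := by ring
  have b2' : (((b1 (n + 2) A).filter fun f => NQ N t p f ∧
      ¬ (p : ℤ) ^ k₀ ∣ qf f (fun i => N.T i 1)).card : ℝ) ≤ ε / 3 * Y := by
    have hpt : (0 : ℝ) < (p : ℝ) ^ t := by positivity
    rw [← mul_le_mul_iff_of_pos_right hpt]
    calc _ ≤ C₂ * Y := e2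
      _ ≤ (ε / 3 * (p : ℝ) ^ t) * Y := mul_le_mul_of_nonneg_right (by linarith) hY0
      _ = ε / 3 * Y * (p : ℝ) ^ t := by ring
  have b3' : (((b1 (n + 2) A).filter fun f =>
      (p : ℤ) ^ k₀ ∣ qf f (fun i => N.T i 1)).card : ℝ) ≤ ε / 3 * Y := by
    have hpt : (0 : ℝ) < (p : ℝ) ^ k₀ := by positivity
    have e3' : (((b1 (n + 2) A).filter fun f =>
        (p : ℤ) ^ k₀ ∣ qf f (fun i => N.T i 1)).card : ℝ) * (p : ℝ) ^ k₀ ≤
        2 ^ md (n + 2) * Y := by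
      have e4 : ((((b1 (n + 2) A).filter fun f =>
          ((p ^ k₀ : ℕ) : ℤ) ∣ qf f (fun i => N.T i 1)).card * p ^ k₀ : ℕ) : ℝ) ≤
          ((2 ^ md (n + 2) * (2 * A + 1) ^ md (n + 2) : ℕ) : ℝ) := by
        exact_mod_cast e3
      push_cast at e4
      exact e4
    rw [← mul_le_mul_iff_of_pos_right hpt]
    calc _ ≤ 2 ^ md (n + 2) * Y := e3'
      _ ≤ (ε / 3 * (p : ℝ) ^ k₀) * Y := mul_le_mul_of_nonneg_right (by linarith) hY0
      _ = ε / 3 * Y * (p : ℝ) ^ k₀ := by ring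
  have hsub : ((b1 (n + 2) A).filter fun f => (∃ x : Fin (n + 2) → ℚ_[p], x ≠ 0 ∧
      ∀ i, qf (cm ℚ_[p] ![F, f] i) x = 0) ∧ ¬ RP N t' p f) ⊆
      ((b1 (n + 2) A).filter fun f => NP t p ![F, f]) ∪
      (((b1 (n + 2) A).filter fun f => NQ N t p f ∧
        ¬ (p : ℤ) ^ k₀ ∣ qf f (fun i => N.T i 1)) ∪
      ((b1 (n + 2) A).filter fun f => (p : ℤ) ^ k₀ ∣ qf f (fun i => N.T i 1))) := by
    intro f hf
    obtain ⟨hfb, hx, hR⟩ := mem_filter.mp hf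
    simp only [mem_union, mem_filter]
    by_cases c1 : NP t p ![F, f]
    · exact Or.inl ⟨hfb, c1⟩
    by_cases c3 : (p : ℤ) ^ k₀ ∣ qf f (fun i => N.T i 1)
    · exact Or.inr (Or.inr ⟨hfb, c3⟩)
    by_cases c2 : NQ N t p f
    · exact Or.inr (Or.inl ⟨hfb, c2, c3⟩)
    exfalso
    have hPR : PR t p ![F, f] := (hQPZ (n + 2) p t ![F, f] hx).resolve_right c1
    obtain ⟨e, he1, he2, he3, he4, he5⟩ := hMOV n F N f p t k hp hPR c2
    exact hR (hTRM f e he1 he2 he3 he4 he5)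
  calc (((b1 (n + 2) A).filter fun f => (∃ x : Fin (n + 2) → ℚ_[p], x ≠ 0 ∧
      ∀ i, qf (cm ℚ_[p] ![F, f] i) x = 0) ∧ ¬ RP N t' p f).card : ℝ)
      ≤ ((((b1 (n + 2) A).filter fun f => NP t p ![F, f]) ∪
      (((b1 (n + 2) A).filter fun f => NQ N t p f ∧
        ¬ (p : ℤ) ^ k₀ ∣ qf f (fun i => N.T i 1)) ∪
      ((b1 (n + 2) A).filter fun f => (p : ℤ) ^ k₀ ∣ qf f (fun i => N.T i 1)))).card : ℝ) := by
        exact_mod_cast card_le_card hsub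
    _ ≤ (((b1 (n + 2) A).filter fun f => NP t p ![F, f]).card : ℝ) +
        ((((b1 (n + 2) A).filter fun f => NQ N t p f ∧
          ¬ (p : ℤ) ^ k₀ ∣ qf f (fun i => N.T i 1)).card : ℝ) +
        (((b1 (n + 2) A).filter fun f => (p : ℤ) ^ k₀ ∣ qf f (fun i => N.T i 1)).card : ℝ)) := by
        have h1 := card_union_le ((b1 (n + 2) A).filter fun f => NP t p ![F, f])
          (((b1 (n + 2) A).filter fun f => NQ N t p f ∧
            ¬ (p : ℤ) ^ k₀ ∣ qf f (fun i => N.T i 1)) ∪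
          ((b1 (n + 2) A).filter fun f => (p : ℤ) ^ k₀ ∣ qf f (fun i => N.T i 1)))
        have h2 := card_union_le ((b1 (n + 2) A).filter fun f => NQ N t p f ∧
            ¬ (p : ℤ) ^ k₀ ∣ qf f (fun i => N.T i 1))
          ((b1 (n + 2) A).filter fun f => (p : ℤ) ^ k₀ ∣ qf f (fun i => N.T i 1))
        have h3 := h1.trans (Nat.add_le_add_left h2 _)
        exact_mod_cast h3
    _ ≤ ε / 3 * Y + (ε / 3 * Y + ε / 3 * Y) := add_le_add b1' (add_le_add b2' b3')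
    _ = ε * Y := by ring

end Pool.Agent.H23.HFQ
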