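import Pool.Agent.H34.FQ.Targets

/-!
# PN2: forms whose section `c = 0` is bad at `p` are rare (helper23)
-/

set_option autoImplicit false

open Finset Pool.Agent.H32.RQ Pool.Agent.H34.FQ

namespace Pool.Agent.H23.HFQ

section gen

variable {R : Type} [CommRing R] {m : ℕ}

/-- the inclusion of the monomials without the first variable -/
private def io (p : Mon m) : Mon (m + 1) :=
  ⟨(p.1.1.succ, p.1.2.succ), Fin.succ_le_succ_iff.mpr p.2⟩

private lemma io_inj : Function.Injective (io (m := m)) := by
  intro p q h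
  have h1 : p.1.1.succ = q.1.1.succ := congrArg (fun z => z.1.1) h
  have h2 : p.1.2.succ = q.1.2.succ := congrArg (fun z => z.1.2) h
  apply Subtype.ext
  apply Prod.ext
  · exact Fin.succ_injective _ h1
  · exact Fin.succ_injective _ h2

private lemma not_io (p : Mon (m + 1)) (h : p ∉ Set.range (io (m := m))) : p.1.1 = 0 := by
  by_contra h0
  apply h
  have h2 : p.1.2 ≠ 0 := fun h2 => h0 (le_antisymm (h2 ▸ p.2) (Fin.zero_le _))
  obtain ⟨a, ha⟩ := Fin.exists_succ_eq.mpr h0
  obtain ⟨b, hb⟩ := Fin.exists_succ_eq.mpr h2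
  have hab : a ≤ b := by
    rw [← Fin.succ_le_succ_iff, ha, hb]; exact p.2
  exact ⟨⟨(a, b), hab⟩, Subtype.ext (Prod.ext ha hb)⟩

/-- the restriction to the first coordinate zero -/
private def rs (g : Mon (m + 1) → R) : Mon m → R := fun p => g (io p)

private lemma qf_cons0 (g : Mon (m + 1) → R) (x : Fin m → R) :
    qf g (Fin.cons 0 x) = qf (rs g) x := by
  unfold qf
  symm
  apply Fintype.sum_of_injective io io_inj
  · intro p hp
    rw [not_io p hp]
    simp
  · intro p
    simp [rs, io]

private lemma dq_cons0 (g : Mon (m + 1) → R) (x : Fin m → R) (j : Fin m) :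
    dq g (Fin.cons 0 x) j.succ = dq (rs g) x j := by
  unfold dq
  symm
  apply Fintype.sum_of_injective io io_inj
  · intro p hp
    rw [not_io p hp]
    have h : (0 : Fin (m + 1)) ≠ j.succ := (Fin.succ_ne_zero j).symm
    simp [h]
  · intro p
    simp [rs, io]

private lemma dq_pol (f : Mon m → R) (x : Fin m → R) (j : Fin m) :
    dq f x j = qf f (x + Pi.single j 1) - qf f x - qf f (Pi.single j 1) := by
  unfold dq qf
  rw [← Finset.sum_sub_distrib, ← Finset.sum_sub_distrib]
  apply Finset.sum_congr rfl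
  intro p _
  simp only [Pi.add_apply, Pi.single_apply]
  split_ifs <;> ring

private lemma qf_smul (f : Mon m → R) (y : R) (x : Fin m → R) :
    qf f (fun i => y * x i) = y ^ 2 * qf f x := by
  unfold qf
  rw [Finset.mul_sum]
  apply Finset.sum_congr rfl
  intro p _
  ring

private lemma qf_cast (M : ℕ) (f : Mon m → ℤ) (x : Fin m → ℤ) :
    qf (cf (ZMod M) f) (fun i => (x i : ZMod M)) = ((qf f x : ℤ) : ZMod M) := by
  unfold qf cf
  push_cast
  rfl

private lemma dq_cast (M : ℕ) (f : Mon m → ℤ) (x : Fin m → ℤ) (j : Fin m) :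
    dq (cf (ZMod M) f) (fun i => (x i : ZMod M)) j = ((dq f x j : ℤ) : ZMod M) := by
  unfold dq cf
  push_cast
  rfl

private lemma pb_cast (M : ℕ) (T : Matrix (Fin m) (Fin m) ℤ) (f : Mon m → ℤ) :
    cf (ZMod M) (pb T f) = pb (T.map (Int.castRingHom (ZMod M))) (cf (ZMod M) f) := by
  funext p
  unfold pb
  show ((if _ then _ else _ : ℤ) : ZMod M) = _
  split_ifs with h
  · exact (qf_cast M f _).symm
  · unfold bl
    push_cast
    refine Finset.sum_congr rfl fun i _ => ?_
    rw [← dq_cast]
    rfl

private lemma qf_congr_dvd (f : Mon m → ℤ) (x y : Fin m → ℤ) (k : ℤ) (h : ∀ i, k ∣ x i - y i) :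
    k ∣ qf f x - qf f y := by
  unfold qf
  rw [← Finset.sum_sub_distrib]
  apply Finset.dvd_sum
  intro p _
  have e : f p * (x p.1.1 * x p.1.2) - f p * (y p.1.1 * y p.1.2) =
      (x p.1.1 - y p.1.1) * (f p * x p.1.2) + (x p.1.2 - y p.1.2) * (f p * y p.1.1) := by ring
  rw [e]
  exact dvd_add (Dvd.dvd.mul_right (h _) _) (Dvd.dvd.mul_right (h _) _)

end gen

private lemma exists_exact (p : ℤ) (a : ℤ) (k : ℕ) (h : ¬ p ^ k ∣ a) :
    ∃ d < k, p ^ d ∣ a ∧ ¬ p ^ (d + 1) ∣ a := by
  induction k with
  | zero => simp at h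
  | succ k ih =>
    by_cases h' : p ^ k ∣ a
    · exact ⟨k, Nat.lt_succ_self k, h', h⟩
    · obtain ⟨d, hd, h1⟩ := ih h'
      exact ⟨d, by omega, h1⟩

private lemma exists_not_dvd (p : ℕ) (hp : p.Prime) (a : ℤ) (ha : a ≠ 0) :
    ∃ k : ℕ, ¬ (p : ℤ) ^ (k + 1) ∣ a := by
  refine ⟨a.natAbs, fun h => ?_⟩
  have h1 : p ^ (a.natAbs + 1) ∣ a.natAbs := by
    have h2 := Int.natAbs_dvd_natAbs.mpr h
    rwa [Int.natAbs_pow, Int.natAbs_natCast] at h2
  have h3 := Nat.le_of_dvd (Int.natAbs_pos.mpr ha) h1
  have h4 : a.natAbs + 1 < p ^ (a.natAbs + 1) := Nat.lt_pow_self hp.one_lt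
  omega

private lemma unit_of_not_dvd (p t : ℕ) (hp : p.Prime) (a : ℤ) (ha : ¬ (p : ℤ) ∣ a) :
    IsUnit ((a : ℤ) : ZMod (p ^ t)) := by
  rw [ZMod.coe_int_isUnit_iff_isCoprime]
  push_cast
  apply IsCoprime.pow_left
  exact (Prime.coprime_iff_not_dvd (Nat.prime_iff_prime_int.mp hp)).mpr ha

open Classical in
/-- the count of the forms whose restriction is in a given set -/
private lemma card_bound (m M : ℕ) [NeZero M] (B : Finset (Mon m → ZMod M))
    (Φ : (Mon (m + 1) → ZMod M) → (Mon (m + 1) → ZMod M)) (hΦ : Function.Injective Φ) :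
    (Finset.univ.filter fun g : Mon (m + 1) → ZMod M => rs (Φ g) ∈ B).card * M ^ md m ≤
      B.card * M ^ md (m + 1) := by
  have h1 : ((Finset.univ.filter fun g : Mon (m + 1) → ZMod M => rs (Φ g) ∈ B) ×ˢ
      (Finset.univ : Finset (Mon m → ZMod M))).card ≤
      (B ×ˢ (Finset.univ : Finset (Mon (m + 1) → ZMod M))).card := by
    apply Finset.card_le_card_of_injOn
      (fun q => (rs (Φ q.1), Function.extend (io (m := m)) q.2 (Φ q.1)))
    · intro q hq
      simp only [coe_product, Set.mem_prod, mem_coe, mem_filter, mem_univ, true_and, and_true]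
        at hq ⊢
      exact hq
    · intro q _ q' _ h
      have ha : rs (Φ q.1) = rs (Φ q'.1) := congrArg Prod.fst h
      have hb : Function.extend (io (m := m)) q.2 (Φ q.1) =
          Function.extend (io (m := m)) q'.2 (Φ q'.1) := congrArg Prod.snd h
      apply Prod.ext
      · apply hΦ
        funext p
        by_cases hp : p ∈ Set.range (io (m := m))
        · obtain ⟨r, rfl⟩ := hp
          exact congrFun ha r
        · have hc := congrFun hb p
          rw [Function.extend_apply' _ _ _ (fun hh => hp hh),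
            Function.extend_apply' _ _ _ (fun hh => hp hh)] at hc
          exact hc
      · funext p
        have hc := congrFun hb (io p)
        rw [io_inj.extend_apply, io_inj.extend_apply] at hc
        exact hc
  rw [card_product, card_product] at h1
  simpa [Finset.card_univ, ZMod.card] using h1

theorem pf_PN2 (hPNG : T_PNG) (hTB1 : T_TB1) (hPBK : T_PBK) : T_PN2 := by
  intro n F N p k₀ hn hp
  classical
  obtain ⟨e₁, he₁⟩ := exists_not_dvd p hp (gr N.r).det N.nd
  set Kc : ℕ := 2 ^ md (n + 2) * ((n + 1) ^ 2 * p ^ (2 * (k₀ + e₁) + 1 + (k₀ + e₁) * (n + 1)))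
    with hKc
  refine ⟨(p ^ (k₀ + e₁ + 1) + Kc : ℕ), by
    have := hp.pos
    positivity, ?_⟩
  intro t A hA
  set S := (b1 (n + 2) A).filter fun f => NQ N t p f ∧
      ¬ (p : ℤ) ^ k₀ ∣ qf f (fun i => N.T i 1) with hS
  have key : S.card * p ^ t ≤ (p ^ (k₀ + e₁ + 1) + Kc) * (2 * A + 1) ^ md (n + 2) := by
    rcases le_or_gt t (k₀ + e₁ + 1) with ht | ht
    · have hb : S.card ≤ (2 * A + 1) ^ md (n + 2) := by
        refine (card_filter_le _ _).trans ?_
        unfold b1
        rw [Fintype.card_piFinset]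
        simp only [Int.card_Icc, prod_const, card_univ]
        have : (((A : ℤ) + 1 - -(A : ℤ)).toNat) = 2 * A + 1 := by omega
        rw [this]
      calc S.card * p ^ t ≤ (2 * A + 1) ^ md (n + 2) * p ^ (k₀ + e₁ + 1) :=
            Nat.mul_le_mul hb (Nat.pow_le_pow_right hp.pos ht)
        _ ≤ (p ^ (k₀ + e₁ + 1) + Kc) * (2 * A + 1) ^ md (n + 2) := by
            rw [mul_comm]
            exact Nat.mul_le_mul_right _ (Nat.le_add_right _ _)
    · have hM0 : NeZero (p ^ t) := ⟨(pow_pos hp.pos t).ne'⟩
      have ht1 : 1 ≤ t := by omega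
      set φ := Int.castRingHom (ZMod (p ^ t)) with hφ
      set T' := N.T.map φ with hT'
      set Ti' := N.Ti.map φ with hTi'
      have hTT : T' * Ti' = 1 := by
        rw [hT', hTi', ← Matrix.map_mul, N.h1]
        exact Matrix.map_one _ (map_zero φ) (map_one φ)
      have hTT' : Ti' * T' = 1 := by
        rw [hT', hTi', ← Matrix.map_mul, N.h2]
        exact Matrix.map_one _ (map_zero φ) (map_one φ)
      have hinj : Function.Injective (pb T' : (Mon (n + 2) → ZMod (p ^ t)) → _) := by
        intro f g h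
        have h1 := (hPBK (ZMod (p ^ t)) (n + 2) T' f 0).2.2 Ti' hTT hTT'
        have h2 := (hPBK (ZMod (p ^ t)) (n + 2) T' g 0).2.2 Ti' hTT hTT'
        rw [← h1, ← h2, h]
      set G₀ : Mon (n + 1) → ZMod (p ^ t) := rs (pb T' (cf (ZMod (p ^ t)) F)) with hG₀
      set B := (Finset.univ.filter fun f : Mon (n + 1) → ZMod (p ^ t) =>
        ∃ x : Fin (n + 1) → ZMod (p ^ t),
        (∃ i, IsUnit (x i)) ∧ qf G₀ x = 0 ∧ qf f x = 0 ∧
        (∃ j, ∃ d : ℕ, d ≤ k₀ + e₁ ∧ d < t ∧ ∃ v : ZMod (p ^ t), IsUnit v ∧
          dq G₀ x j = (p : ZMod (p ^ t)) ^ d * v) ∧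
        ∀ j l, jm ![G₀, f] x j l = 0) with hB
      have hBc := hPNG (n + 1) p t (k₀ + e₁) G₀ (by omega) hp
      set E := (Finset.univ.filter fun g : Mon (n + 2) → ZMod (p ^ t) => rs (pb T' g) ∈ B)
        with hE
      have hEc := card_bound (n + 1) (p ^ t) B (pb T') hinj
      have hTBc := hTB1 (n + 2) A (p ^ t) E hA
      have hsub : S ⊆ (b1 (n + 2) A).filter fun f => cf (ZMod (p ^ t)) f ∈ E := by
        intro f hf
        obtain ⟨hfb, ⟨e, he1, he2, he3, he4, he5⟩, hz⟩ := mem_filter.mp hf
        refine mem_filter.mpr ⟨hfb, mem_filter.mpr ⟨mem_univ _, mem_filter.mpr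
          ⟨mem_univ _, ?_⟩⟩⟩
        set x : Fin (n + 1) → ZMod (p ^ t) := fun j => (e j.succ : ZMod (p ^ t)) with hx
        have he0 : ((e 0 : ℤ) : ZMod (p ^ t)) = 0 := by
          rw [ZMod.intCast_zmod_eq_zero_iff_dvd]; push_cast; exact he2
        have hcx : (Fin.cons 0 x : Fin (n + 2) → ZMod (p ^ t)) =
            fun i => (e i : ZMod (p ^ t)) := by
          funext i
          refine Fin.cases ?_ (fun j => ?_) i
          · rw [Fin.cons_zero, he0]
          · rw [Fin.cons_succ]
        have hz0 : ∀ a : ℤ, (p : ℤ) ^ t ∣ a → ((a : ℤ) : ZMod (p ^ t)) = 0 := by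
          intro a ha
          rw [ZMod.intCast_zmod_eq_zero_iff_dvd]; push_cast; exact ha
        have hpz : (p : ℤ) ∣ e 0 := (dvd_pow_self _ (by omega)).trans he2
        -- the gradient
        have hgrad : ∃ j : Fin n, ¬ (p : ℤ) ^ (k₀ + e₁) ∣ dq N.r (vt e) j := by
          by_contra hcon
          push Not at hcon
          obtain ⟨d₀, hd₀, hd1, hd2⟩ := exists_exact p _ _ he₁
          obtain ⟨u, hu⟩ := hd1
          have hpu : ¬ (p : ℤ) ∣ u := by
            rintro ⟨w, rfl⟩
            exact hd2 ⟨w, by rw [hu]; ring⟩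
          have hv : ∀ i : Fin n, (p : ℤ) ^ k₀ ∣ vt e i := by
            intro i
            have h1 : (gr N.r).adjugate * gr N.r = (gr N.r).det • 1 := Matrix.adjugate_mul _
            have h2 : (gr N.r).det * vt e i =
                ∑ j, (gr N.r).adjugate i j * dq N.r (vt e) j := by
              have h3 : ∀ j, dq N.r (vt e) j = ((gr N.r).mulVec (vt e)) j := by
                intro j
                rw [← Pool.Agent.H13.RQ.Hs_mulVec]
                rfl
              have h4 : ((gr N.r).adjugate.mulVec ((gr N.r).mulVec (vt e))) i =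
                  (gr N.r).det * vt e i := by
                rw [Matrix.mulVec_mulVec, h1, Matrix.smul_mulVec, Matrix.one_mulVec]
                rfl
              rw [← h4]
              simp only [h3]
              rfl
            have h5 : (p : ℤ) ^ (k₀ + e₁) ∣ (gr N.r).det * vt e i := by
              rw [h2]
              exact Finset.dvd_sum fun j _ => Dvd.dvd.mul_left (hcon j) _
            have h6 : (p : ℤ) ^ (k₀ + d₀) ∣ (p : ℤ) ^ d₀ * (u * vt e i) := by
              rw [← mul_assoc, ← hu]
              exact (pow_dvd_pow _ (by omega)).trans h5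
            rw [pow_add, mul_comm ((p : ℤ) ^ k₀)] at h6
            have h7 := (mul_dvd_mul_iff_left (pow_ne_zero _ (by exact_mod_cast hp.ne_zero))).mp h6
            have hcop : IsCoprime ((p : ℤ) ^ k₀) u :=
              IsCoprime.pow_left
                ((Prime.coprime_iff_not_dvd (Nat.prime_iff_prime_int.mp hp)).mpr hpu)
            exact hcop.dvd_of_dvd_mul_left h7
          have hk0 : k₀ ≠ 0 := by
            rintro rfl
            apply hz
            simp
          have hy : ¬ (p : ℤ) ∣ e 1 := by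
            intro hy
            obtain ⟨i, hi⟩ := he1
            apply hi
            refine Fin.cases hpz (fun j => ?_) i
            refine Fin.cases hy (fun l => ?_) j
            exact (dvd_pow_self _ hk0).trans (hv l)
          apply hz
          have h8 : (p : ℤ) ^ k₀ ∣ qf (pb N.T f) e - qf (pb N.T f) (Pi.single 1 (e 1)) := by
            apply qf_congr_dvd
            intro i
            refine Fin.cases ?_ (fun j => ?_) i
            · have h01 : (0 : Fin (n + 2)) ≠ 1 := by simp
              rw [Pi.single_eq_of_ne h01, sub_zero]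
              exact (pow_dvd_pow _ (by omega)).trans he2
            · refine Fin.cases ?_ (fun l => ?_) j
              · have h11 : (Fin.succ 0 : Fin (n + 2)) = 1 := rfl
                rw [h11, Pi.single_eq_same, sub_self]
                exact dvd_zero _
              · have h12 : (Fin.succ (Fin.succ l) : Fin (n + 2)) ≠ 1 := by
                  intro hh
                  have := congrArg Fin.val hh
                  simp at this
                rw [Pi.single_eq_of_ne h12, sub_zero]
                exact hv l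
          have h9 : (p : ℤ) ^ k₀ ∣ qf (pb N.T f) e := (pow_dvd_pow _ (by omega)).trans he4
          have h10 : (p : ℤ) ^ k₀ ∣ qf (pb N.T f) (Pi.single 1 (e 1)) := by
            have := dvd_sub h9 h8
            rwa [sub_sub_cancel] at this
          rw [(hPBK ℤ (n + 2) N.T f _).1] at h10
          have h11 : (fun i => ∑ j, N.T i j * (Pi.single 1 (e 1) : Fin (n + 2) → ℤ) j) =
              fun i => e 1 * N.T i 1 := by
            funext i
            rw [Finset.sum_eq_single 1]
            · rw [Pi.single_eq_same, mul_comm]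
            · intro b _ hb
              rw [Pi.single_eq_of_ne hb, mul_zero]
            · intro h; exact absurd (mem_univ _) h
          rw [h11, qf_smul] at h10
          have hcop : IsCoprime ((p : ℤ) ^ k₀) (e 1 ^ 2) :=
            IsCoprime.pow ((Prime.coprime_iff_not_dvd (Nat.prime_iff_prime_int.mp hp)).mpr hy)
          exact hcop.dvd_of_dvd_mul_left h10
        obtain ⟨j₀, hj₀⟩ := hgrad
        obtain ⟨d, hd, hd1, hd2⟩ := exists_exact p _ _ hj₀
        obtain ⟨u, hu⟩ := hd1
        have hpu : ¬ (p : ℤ) ∣ u := by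
          rintro ⟨w, rfl⟩
          exact hd2 ⟨w, by rw [hu]; ring⟩
        have hqr : ∀ (y : ℤ) (v : Fin n → ℤ), qf (pb N.T F) (pt 0 y v) = qf N.r v := by
          intro y v
          rw [(hPBK ℤ (n + 2) N.T F _).1]
          have h1 := N.hF ℤ 0 y v
          have h2 := N.hr ℤ v
          have h3 : (fun i => ∑ j, N.T i j * pt 0 y v j) = mv N.T (pt 0 y v) := by
            funext i
            unfold mv
            simp
          have h4 : cf ℤ F = F := by funext p; simp [cf]
          have h5 : cf ℤ N.q = N.q := by funext p; simp [cf]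
          have h6 : cf ℤ N.r = N.r := by funext p; simp [cf]
          rw [h4, h5] at h1
          rw [h5, h6] at h2
          rw [h3, h1, h2]
          simp
        have h1s : ¬ (1 : Fin (n + 2)) = j₀.succ.succ := by
          intro hh
          have h := congrArg Fin.val hh
          simp at h
        have hdr : dq (pb N.T F) (pt 0 (e 1) (vt e)) j₀.succ.succ = dq N.r (vt e) j₀ := by
          rw [dq_pol, dq_pol, ← hqr (e 1) (vt e + Pi.single j₀ 1), ← hqr (e 1) (vt e),
            ← hqr 0 (Pi.single j₀ 1)]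
          have h1 : pt 0 (e 1) (vt e) + Pi.single j₀.succ.succ 1 =
              pt 0 (e 1) (vt e + Pi.single j₀ 1) := by
            funext i
            refine Fin.cases ?_ (fun j => ?_) i
            · simp [pt]
            · refine Fin.cases ?_ (fun l => ?_) j
              · simp [pt, Pi.single_apply, h1s]
              · simp [pt, Pi.single_apply]
          have h2 : (Pi.single j₀.succ.succ 1 : Fin (n + 2) → ℤ) =
              pt 0 0 (Pi.single j₀ 1) := by
            funext i
            refine Fin.cases ?_ (fun j => ?_) i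
            · simp [pt]
            · refine Fin.cases ?_ (fun l => ?_) j
              · simp [pt, Pi.single_apply, h1s]
              · simp [pt, Pi.single_apply]
          rw [h1, h2]
        have hce : (fun i => ((pt 0 (e 1) (vt e) i : ℤ) : ZMod (p ^ t))) =
            Fin.cons 0 x := by
          funext i
          refine Fin.cases ?_ (fun j => ?_) i
          · simp [pt]
          · refine Fin.cases ?_ (fun l => ?_) j
            · simp [pt, hx]
            · simp [pt, hx, vt]
        refine ⟨x, ?_, ?_, ?_, ⟨j₀.succ, d, hd.le, by omega, ((u : ℤ) : ZMod (p ^ t)),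
          unit_of_not_dvd p t hp u hpu, ?_⟩, ?_⟩
        · obtain ⟨i, hi⟩ := he1
          revert hi
          refine Fin.cases (fun hi => absurd hpz hi) (fun j hj => ?_) i
          exact ⟨j, unit_of_not_dvd p t hp _ hj⟩
        · rw [hG₀, ← qf_cons0, hcx, hT', ← pb_cast, qf_cast]
          exact hz0 _ he3
        · rw [← qf_cons0, hcx, hT', ← pb_cast, qf_cast]
          exact hz0 _ he4
        · rw [hG₀, ← dq_cons0, ← hce, hT', ← pb_cast, dq_cast, hdr, hu]
          push_cast
          rfl
        · intro j l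
          have h1 := hz0 _ (he5 j.succ l.succ (Fin.succ_ne_zero j) (Fin.succ_ne_zero l))
          unfold jm at h1 ⊢
          simp only [Matrix.cons_val_zero, Matrix.cons_val_one] at h1 ⊢
          rw [hG₀]
          rw [← dq_cons0, ← dq_cons0, ← dq_cons0, ← dq_cons0, hcx, hT', ← pb_cast, ← pb_cast,
            dq_cast, dq_cast, dq_cast, dq_cast]
          push_cast at h1
          exact h1
      have hS1 : S.card * (p ^ t) ^ md (n + 2) ≤
          2 ^ md (n + 2) * (2 * A + 1) ^ md (n + 2) * E.card :=
        (Nat.mul_le_mul_right _ (card_le_card hsub)).trans hTBc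
      have hE1 : E.card * (p ^ t) ^ md (n + 1) ≤ B.card * (p ^ t) ^ md (n + 2) := hEc
      have hB1 : B.card * p ^ t ≤ (n + 1) ^ 2 *
          p ^ (2 * (k₀ + e₁) + 1 + (k₀ + e₁) * (n + 1)) * (p ^ t) ^ md (n + 1) := hBc
      have hPpos : 0 < (p ^ t) ^ md (n + 2) * (p ^ t) ^ md (n + 1) := by
        have := hp.pos
        positivity
      apply Nat.le_of_mul_le_mul_right _ hPpos
      calc S.card * p ^ t * ((p ^ t) ^ md (n + 2) * (p ^ t) ^ md (n + 1))
          = (S.card * (p ^ t) ^ md (n + 2)) * ((p ^ t) ^ md (n + 1) * p ^ t) := by ring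
        _ ≤ (2 ^ md (n + 2) * (2 * A + 1) ^ md (n + 2) * E.card) *
            ((p ^ t) ^ md (n + 1) * p ^ t) := Nat.mul_le_mul_right _ hS1
        _ = 2 ^ md (n + 2) * (2 * A + 1) ^ md (n + 2) * (E.card * (p ^ t) ^ md (n + 1)) *
            p ^ t := by ring
        _ ≤ 2 ^ md (n + 2) * (2 * A + 1) ^ md (n + 2) * (B.card * (p ^ t) ^ md (n + 2)) *
            p ^ t := by gcongr
        _ = 2 ^ md (n + 2) * (2 * A + 1) ^ md (n + 2) * (p ^ t) ^ md (n + 2) *
            (B.card * p ^ t) := by ring
        _ ≤ 2 ^ md (n + 2) * (2 * A + 1) ^ md (n + 2) * (p ^ t) ^ md (n + 2) *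
            ((n + 1) ^ 2 * p ^ (2 * (k₀ + e₁) + 1 + (k₀ + e₁) * (n + 1)) *
              (p ^ t) ^ md (n + 1)) := Nat.mul_le_mul_left _ hB1
        _ = Kc * (2 * A + 1) ^ md (n + 2) * ((p ^ t) ^ md (n + 2) * (p ^ t) ^ md (n + 1)) := by
            rw [hKc]; ring
        _ ≤ (p ^ (k₀ + e₁ + 1) + Kc) * (2 * A + 1) ^ md (n + 2) *
            ((p ^ t) ^ md (n + 2) * (p ^ t) ^ md (n + 1)) := by
            gcongr
            exact Nat.le_add_left _ _
  have key' : ((S.card * p ^ t : ℕ) : ℝ) ≤
      (((p ^ (k₀ + e₁ + 1) + Kc) * (2 * A + 1) ^ md (n + 2) : ℕ) : ℝ) := by exact_mod_cast key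
  push_cast at key' ⊢
  exact key'

end Pool.Agent.H23.HFQ
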